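import Mathlib

set_option autoImplicit false
open Finset Equiv Equiv.Perm Polynomial
open scoped Classical

namespace Pool.Agent.Results.MP_752880_co.ThreeBlocks

variable {n : ℕ}

/-- The number of cycles of a permutation, fixed points included. -/
noncomputable def cyc (p : Perm (Fin n)) : ℕ := Nat.card (Quotient (SameCycle.setoid p))

/-- `t` sends each element to the next larger element of its block, and the largest one to the smallest. -/
def IsTau (r : Setoid (Fin n)) (t : Fin n → Fin n) : Prop :=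
  ∀ i, r i (t i) ∧ ((i < t i ∧ ∀ j, r i j → i < j → t i ≤ j) ∨ ((∀ j, r i j → j ≤ i) ∧ ∀ j, r i j → t i ≤ j))

/-- The number of partitions of an `n`-element chain into `k` blocks with genus `g`. -/
noncomputable def S (n k g : ℕ) : ℕ :=
  Nat.card {r : Setoid (Fin n) // Nat.card (Quotient r) = k ∧
    ∃ t : Perm (Fin n), IsTau r t ∧ k + cyc (t⁻¹ * finRotate n) + 2 * g = n + 1}

noncomputable def mins (r : Setoid (Fin n)) : Finset (Fin n) := {i | ∀ j, r i j → i ≤ j}

theorem exm (r : Setoid (Fin n)) (i : Fin n) : ∃ m ∈ mins r, r m i := by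
  obtain ⟨m, a, b⟩ := exists_min_image {j | r j i} id ⟨i, by simp⟩
  simp only [mem_filter, mem_univ, true_and, id] at a b
  exact ⟨m, by simpa [mins] using fun j h => b j (r.trans (r.symm h) a), a⟩

theorem uqm {r : Setoid (Fin n)} {i j : Fin n} (a : i ∈ mins r) (b : j ∈ mins r) (h : r i j) : i = j :=
  le_antisymm ((mem_filter.mp a).2 j h) ((mem_filter.mp b).2 i (r.symm h))

theorem cm (r : Setoid (Fin n)) : Nat.card (Quotient r) = #(mins r) := by
  rw [Nat.card_eq_fintype_card, ← card_univ]
  refine (card_bij (fun i _ => Quotient.mk r i) (by simp) (fun i a j b h => uqm a b (Quotient.exact h)) fun q _ => ?_).symm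
  obtain ⟨m, a, b⟩ := exm r q.out
  exact ⟨m, a, (Quotient.sound b).trans q.out_eq⟩

theorem cy (p : Perm (Fin n)) : p.cycleType.card = #{i ∈ mins (SameCycle.setoid p) | p i ≠ i} ∧
    cyc p + #p.support = p.cycleType.card + n := by
  have a : p.cycleType.card = #{i ∈ mins (SameCycle.setoid p) | p i ≠ i} := by
    rw [cycleType_def, Multiset.card_map]
    refine (card_bij (fun i _ => p.cycleOf i) (fun i h => cycleOf_mem_cycleFactorsFinset_iff.mpr
      (mem_support.mpr (mem_filter.mp h).2)) (fun i a j b h => ?_) fun c hc => ?_).symm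
    · rw [mem_filter, ← mem_support] at a b
      exact uqm a.1 b.1 ((sameCycle_iff_cycleOf_eq_of_mem_support a.2 b.2).mpr h)
    · obtain ⟨x, hx⟩ := (mem_cycleFactorsFinset_iff.mp hc).1.nonempty_support
      obtain ⟨m, a, b⟩ := exm (SameCycle.setoid p) x
      have e := cycle_is_cycleOf hx hc
      refine ⟨m, mem_filter.mpr ⟨a, fun z => ?_⟩, (SameCycle.cycleOf_eq b).trans e.symm⟩
      exact mem_support.mp (mem_support_cycleOf_iff.mp (e ▸ hx)).2 ((SameCycle.apply_eq_self_iff b).mp z)
  refine ⟨a, ?_⟩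
  have b := card_filter_add_card_filter_not (s := mins (SameCycle.setoid p)) fun i => p i ≠ i
  have c : {i ∈ mins (SameCycle.setoid p) | ¬p i ≠ i} = p.supportᶜ := by
    ext i; simp only [mins, mem_filter, mem_univ, true_and, mem_compl, mem_support, and_iff_right_iff_imp, not_not]
    exact fun h j e => (SameCycle.eq_of_left e h).le
  have d := card_compl_add_card p.support
  rw [c] at b
  rw [cyc, cm, a]; simp only [Fintype.card_fin] at d; omega

theorem sg (p : Perm (Fin n)) : sign p = (-1) ^ (cyc p + n) := by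
  rw [sign_of_cycleType, sum_cycleType, neg_one_pow_congr]
  have := (cy p).2; grind

theorem ext (r : Setoid (Fin n)) : ∃ t : Perm (Fin n), IsTau r t := by
  have : ∀ i, ∃ x, r i x ∧ ((i < x ∧ ∀ j, r i j → i < j → x ≤ j) ∨ ((∀ j, r i j → j ≤ i) ∧ ∀ j, r i j → x ≤ j)) :=
    fun i => by
    by_cases h : ∃ j, r i j ∧ i < j
    · obtain ⟨m, a, b⟩ := exists_min_image {j | r i j ∧ i < j} id (by simpa [filter_nonempty_iff])
      simp only [mem_filter, mem_univ, true_and, id] at a b
      exact ⟨m, a.1, Or.inl ⟨a.2, fun j u v => b j ⟨u, v⟩⟩⟩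
    · obtain ⟨m, a, b⟩ := exm r i
      exact ⟨m, r.symm b, Or.inr ⟨fun j u => not_lt.mp fun v => h ⟨j, u, v⟩,
        fun j u => (mem_filter.mp a).2 j (r.trans b u)⟩⟩
  choose t ht using this
  have k : ∀ i j, t i = t j → ¬i < j := fun i j e l => by
    have q : r i j := r.trans (ht i).1 (e ▸ r.symm (ht j).1)
    rcases (ht i).2 with a | a
    · rcases (ht j).2 with b | b
      · exact (a.2 j q l).not_gt (e ▸ b.1)
      · exact (b.2 i (r.symm q)).not_gt (e ▸ a.1)
    · exact (a.1 j q).not_gt l
  exact ⟨ofBijective t (Finite.injective_iff_bijective.mp fun i j e =>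
    le_antisymm (not_lt.mp (k j i e.symm)) (not_lt.mp (k i j e))), ht⟩

theorem sc {r : Setoid (Fin n)} {t : Perm (Fin n)} (h : IsTau r t) : SameCycle.setoid t = r := by
  have a : ∀ m ∈ mins r, ∀ j, r m j → SameCycle t m j := fun m hm j => by
    induction j using WellFoundedLT.induction with
    | _ j ih =>
      intro e
      obtain ⟨i, rfl⟩ := t.surjective j
      have q := r.trans e (r.symm (h i).1)
      rcases (h i).2 with b | b
      · exact sameCycle_apply_right.mpr (ih i b.1 q)
      · rw [← le_antisymm ((mem_filter.mp hm).2 _ e) (b.2 m (r.symm q))]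
  refine Setoid.ext fun i j => ⟨fun e => ?_, fun e => ?_⟩
  · obtain ⟨k, -, rfl⟩ := SameCycle.exists_pow_eq' e
    clear e
    induction k with
    | zero => exact r.refl _
    | succ k ih => rw [pow_succ']; exact r.trans ih (h _).1
  · obtain ⟨m, u, v⟩ := exm r i
    exact (a m u i v).symm.trans (a m u j (r.trans v e))

theorem key {r : Setoid (Fin (n + 1))} {t : Perm (Fin (n + 1))} (h : IsTau r t) (h3 : Nat.card (Quotient r) = 3)
    (g : ℕ) : 3 + cyc (t⁻¹ * finRotate (n + 1)) + 2 * g = n + 1 + 1 ↔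
      #{i | ¬r i (i + 1)} = 2 * g + 3 ∨ #{i | ¬r i (i + 1)} = 2 * g + 4 := by
  obtain ⟨p, hp⟩ : ∃ p, p = t⁻¹ * finRotate (n + 1) := ⟨_, rfl⟩
  have e : ∀ i, t (p i) = i + 1 := fun i => by simp [hp]
  have s : p.support = ({i | ¬r i (i + 1)} : Finset _) := by
    ext i
    simp only [mem_support, mem_filter, mem_univ, true_and]
    refine not_congr ⟨fun a => by rw [← e, a]; exact (h i).1, fun a => t.injective ((e i).trans ?_)⟩
    have := Fin.val_add_one i
    rcases (h i).2 with b | b
    · have u := b.2 _ a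
      have v := b.1
      have := (t i).2
      simp only [Fin.lt_def, Fin.le_def, Fin.ext_iff, Fin.val_last] at *; split_ifs at * <;> omega
    · have u := b.1 _ a
      have v := b.2 _ a
      simp only [Fin.le_def, Fin.ext_iff, Fin.val_last] at *; split_ifs at * <;> omega
  have z : (0 : Fin (n + 1)) ∈ mins r := by simp [mins]
  rw [cm] at h3
  have c2 : p.cycleType.card ≤ 2 := by
    rw [(cy p).1, show 2 = #((mins r).erase 0) by rw [card_erase_of_mem z, h3]]
    refine card_le_card_of_injOn (· + 1) (fun i hi => ?_) (add_left_injective 1).injOn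
    simp only [mins, coe_filter, mem_filter, mem_univ, true_and, Set.mem_setOf_eq] at hi
    have l := lt_of_le_of_ne (hi.1 (p i) (sameCycle_apply_right.mpr (.refl _ _))) hi.2.symm
    have v := Fin.val_add_one_of_lt (l.trans_le (Fin.le_last _))
    have q := h (p i)
    rw [e] at q
    simp only [mins, coe_erase, coe_filter, Set.mem_diff, mem_univ, true_and, Set.mem_setOf_eq, Set.mem_singleton_iff]
    refine ⟨fun j a => (q.2.resolve_left fun b => ?_).2 j (r.trans q.1 a), fun a => by simp [a] at v⟩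
    have := b.1
    rw [Fin.lt_def, v] at this
    exact this.not_ge l
  have c1 : p.cycleType.card ≠ 0 := fun a => by
    rw [card_cycleType_eq_zero.mp a, support_one, eq_comm, filter_eq_empty_iff] at s
    have : ∀ i, r 0 i := fun i => by
      induction i using Fin.induction with
      | zero => exact r.refl _
      | succ i ih => exact r.trans ih (by simpa using s (mem_univ i.castSucc))
    have := card_le_card (show mins r ⊆ {0} from fun i hi => mem_singleton.mpr (uqm z hi (this i)).symm)
    simp [h3] at this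
  have pr : Even (cyc p + (n + 1)) := by
    have := sg p
    rw [hp, Perm.sign_mul, sign_inv, sg t, cyc, sc h, cm, h3, sign_finRotate, ← pow_add, ← hp, Even.neg_one_pow (by grind),
      eq_comm, neg_one_pow_eq_one_iff_even (by decide)] at this
    exact this
  have := (cy p).2
  rw [← hp, ← s]; grind

noncomputable def M (A : Finset (Fin 3)) (a b : Fin 3) : ℚ[X] := if a ∈ A then (if a = b then 1 else X) else 0

theorem path (A : Finset (Fin 3)) {b : Fin 3} (hb : b ∈ A) : ∀ (n : ℕ) (a : Fin 3),
    (#A : ℚ[X]) * ∑ w : Fin n → Fin 3, ∏ i, M A ((Fin.cons a w : Fin (n + 1) → Fin 3) i)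
      ((Fin.snoc w b : Fin (n + 1) → Fin 3) i) = if a ∈ A then (1 + ((#A : ℚ[X]) - 1) * X) ^ (n + 1) +
        (if a = b then (#A : ℚ[X]) - 1 else -1) * (1 - X) ^ (n + 1) else 0
  | 0, a => by simp [M, Fin.snoc_zero]; split_ifs <;> ring
  | n + 1, a => by
    rw [← (Fin.consEquiv fun _ => Fin 3).sum_comp, Fintype.sum_prod_type]
    simp only [Fin.consEquiv, Equiv.coe_fn_mk, ← Fin.cons_snoc_eq_snoc_cons]
    simp only [Fin.prod_univ_succ (n := n + 1), Fin.cons_zero, Fin.cons_succ, ← mul_sum]
    rw [mul_sum, sum_congr rfl fun c _ => by rw [mul_left_comm, path A hb n c]]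
    by_cases ha : a ∈ A
    · have : ∀ c, M A a c = X + if a = c then 1 - X else 0 := fun c => by simp only [M, if_pos ha]; split_ifs <;> ring
      have e : ∀ c, (if c = b then (#A - 1 : ℚ[X]) else -1) = -1 + if c = b then (#A : ℚ[X]) else 0 := fun c => by
        split_ifs <;> ring
      simp only [this, add_mul, sum_add_distrib, ← mul_sum, ite_mul, zero_mul, sum_ite_eq, mem_univ, if_true,
        if_pos ha, sum_ite_mem, univ_inter, e, sum_ite_eq', if_pos hb, sum_const, nsmul_eq_mul]
      split_ifs <;> ring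
    · simp [M, ha]

theorem tr (A : Finset (Fin 3)) (hA : #A ≠ 0) (n : ℕ) :
    ∑ w : Fin (n + 1) → Fin 3, (if image w univ ⊆ A then 1 else 0) * X ^ #{i | ¬w i = w (i + 1)} =
      (1 + ((#A : ℚ[X]) - 1) * X) ^ (n + 1) + ((#A : ℚ[X]) - 1) * (1 - X) ^ (n + 1) := by
  have e : ∀ w : Fin (n + 1) → Fin 3, (if image w univ ⊆ A then 1 else 0) * X ^ #{i | ¬w i = w (i + 1)} =
      ∏ i, M A (w i) (w (i + 1)) := fun w => by
    simp [M, prod_ite_zero, prod_ite, image_subset_iff]
  refine mul_left_cancel₀ (Nat.cast_ne_zero.mpr hA) ?_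
  rw [sum_congr rfl fun w _ => e w, ← (Fin.consEquiv fun _ => Fin 3).sum_comp, Fintype.sum_prod_type, mul_sum,
    sum_congr rfl (g := fun a => if a ∈ A then (1 + ((#A : ℚ[X]) - 1) * X) ^ (n + 1) + ((#A : ℚ[X]) - 1) * (1 - X) ^ (n + 1)
      else 0) fun a _ => ?_]
  · simp; ring
  by_cases ha : a ∈ A
  · have := path A ha n a
    simp only [Fin.snoc_eq_cons_rotate, finRotate_succ_apply, if_true] at this
    exact this
  · rw [if_neg ha, sum_eq_zero fun w _ => prod_eq_zero (mem_univ 0) (by simp [M, ha]), mul_zero]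

theorem co (a : ℚ) (n m : ℕ) : ((1 + C a * X) ^ n).coeff m = a ^ m * n.choose m := by
  rw [add_comm, add_pow]
  simp only [mul_pow, ← C_pow, one_pow, mul_one, finset_sum_coeff, ← C_eq_natCast, coeff_mul_C, coeff_C_mul,
    coeff_X_pow, mul_ite, ite_mul, mul_zero, zero_mul, sum_ite_eq, mem_range]
  split_ifs with h
  · rfl
  · rw [Nat.choose_eq_zero_of_lt (by omega)]; simp

theorem cnt (n m : ℕ) : (#{w : Fin (n + 1) → Fin 3 | Function.Surjective w ∧ #{i | ¬w i = w (i + 1)} = m + 1} : ℚ) =
    (2 ^ (m + 1) - 3 - (-1) ^ (m + 1)) * (n + 1).choose (m + 1) := by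
  have ie : ∀ I : Finset (Fin 3), I.Nonempty → (if I = univ then 1 else 0 : ℤ) = (if I ⊆ univ then 1 else 0) -
      ∑ c, (if I ⊆ {c}ᶜ then 1 else 0) + ∑ c, if I ⊆ {c} then 1 else 0 := by decide
  have a : ∑ w : Fin (n + 1) → Fin 3, (if image w univ = univ then 1 else 0) * X ^ #{i | ¬w i = w (i + 1)} =
      (1 + C 2 * X : ℚ[X]) ^ (n + 1) - C 3 * (1 + C 1 * X) ^ (n + 1) - (1 + C (-1) * X) ^ (n + 1) + C 3 := by
    rw [sum_congr rfl fun w _ => by
      have := congrArg (Int.cast : ℤ → ℚ[X]) (ie (image w univ) (by simp))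
      push_cast at this
      rw [this, add_mul, sub_mul, sum_mul, sum_mul]]
    rw [sum_add_distrib, sum_sub_distrib, sum_comm, sum_comm (t := (univ : Finset (Fin 3))), tr _ (by simp),
      sum_congr rfl fun c _ => tr _ (by simp [card_compl]) n, sum_congr rfl fun c _ => tr _ (by simp) n]
    simp [card_compl, map_ofNat]; ring
  have b := congrArg (coeff · (m + 1)) a
  simp only [finset_sum_coeff, coeff_add, coeff_sub, coeff_C_mul, co, coeff_C_succ, ite_mul, one_mul, zero_mul,
    apply_ite (coeff · (m + 1)), coeff_X_pow, coeff_zero, ← ite_and, sum_boole] at b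
  rw [← sub_eq_zero, ← sub_eq_zero.mpr b]
  congr 1
  · congr 2; ext w
    simp only [mem_filter, mem_univ, true_and, eq_univ_iff_forall, mem_image, eq_comm (a := m + 1)]; rfl
  · ring

theorem six (P : Setoid (Fin n) → Prop) : #{w : Fin n → Fin 3 | Function.Surjective w ∧ P (Setoid.ker w)} =
    6 * Nat.card {r : Setoid (Fin n) // Nat.card (Quotient r) = 3 ∧ P r} := by
  haveI : Finite (Setoid (Fin n)) := .of_injective (fun r => r.r) fun _ _ e => Setoid.ext fun a b => iff_of_eq (congrFun₂ e a b)
  haveI := Fintype.ofFinite (Setoid (Fin n))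
  rw [Nat.card_eq_fintype_card, Fintype.card_subtype, card_eq_sum_card_fiberwise (f := Setoid.ker)
    (t := {r | Nat.card (Quotient r) = 3 ∧ P r}) fun w hw => ?_, sum_const_nat (m := 6) fun r hr => ?_, mul_comm]
  · obtain ⟨a, b⟩ := (mem_filter.mp hr).2
    have : Fintype.card (Quotient r ≃ Fin 3) = 6 := by
      rw [Fintype.card_equiv (Finite.equivFinOfCardEq a), ← Nat.card_eq_fintype_card, a]; rfl
    rw [← this, ← card_univ]
    refine (card_bij (fun (e : Quotient r ≃ Fin 3) _ => e ∘ Quotient.mk r) (fun e _ => ?_) (fun e _ f _ h => ?_) fun w hw => ?_).symm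
    · have k : Setoid.ker (e ∘ Quotient.mk r) = r := Setoid.ext fun x y => by simp [Setoid.ker_def, Quotient.eq]
      simp only [mem_filter, mem_univ, true_and, k, b, and_true]
      exact e.surjective.comp Quotient.mk_surjective
    · exact Equiv.ext fun q => by induction q using Quotient.inductionOn; exact congrFun h _
    · simp only [mem_filter, mem_univ, true_and] at hw
      obtain ⟨⟨u, -⟩, rfl⟩ := hw
      exact ⟨Setoid.quotientKerEquivOfSurjective w u, mem_univ _, rfl⟩
  · simp only [coe_filter, mem_univ, true_and, Set.mem_setOf_eq] at hw ⊢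
    exact ⟨by simpa using Nat.card_congr (Setoid.quotientKerEquivOfSurjective w hw.1), hw.2⟩

theorem result (n g : ℕ) (hn : 1 ≤ n) :
    (S n 3 g : ℚ) = (4 ^ (g + 1) - 1) * (n - g - 1) / (3 * (g + 2)) * n.choose (2 * g + 3) := by
  obtain ⟨n, rfl⟩ := Nat.exists_eq_add_of_le' hn
  have a := six (n := n + 1) fun r => #{i | ¬r i (i + 1)} = 2 * g + 3 ∨ #{i | ¬r i (i + 1)} = 2 * g + 4
  rw [← show S (n + 1) 3 g = _ from Nat.card_congr (subtypeEquivRight fun r => and_congr_right fun h =>
    ⟨fun ⟨t, u, v⟩ => (key u h g).mp v, fun v => (ext r).imp fun t u => ⟨u, (key u h g).mpr v⟩⟩)] at a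
  simp only [Setoid.ker_def, and_or_left, filter_or] at a
  rw [card_union_of_disjoint (disjoint_filter.mpr fun _ _ u v => by omega)] at a
  have b := congrArg (Nat.cast : ℕ → ℚ) a
  rw [Nat.cast_add, cnt, cnt, Odd.neg_one_pow (by grind), Even.neg_one_pow (by grind)] at b
  have c : ((n + 1).choose (2 * g + 3 + 1) : ℚ) * (2 * g + 4) = (n + 1).choose (2 * g + 3) * (n - 2 * g - 2) := by
    by_cases h : 2 * g + 3 ≤ n + 1
    · have := congrArg (Nat.cast : ℕ → ℚ) (Nat.choose_succ_right_eq (n + 1) (2 * g + 3))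
      rw [Nat.cast_mul, Nat.cast_mul, Nat.cast_sub h] at this
      push_cast at this; linarith
    · rw [Nat.choose_eq_zero_of_lt (by omega), Nat.choose_eq_zero_of_lt (by omega)]; simp
  have d : (2 : ℚ) ^ (2 * g) = 4 ^ g := by rw [pow_mul]; norm_num
  simp only [pow_succ, d] at b ⊢
  push_cast at b ⊢
  field_simp
  linear_combination (-(g + 2) / 2) * b + (4 * 4 ^ g - 1) * c

end Pool.Agent.Results.MP_752880_co.ThreeBlocks
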